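import Pool.Agent.N20.EW.Stm5
import Pool.Agent.N20.AE.Stm3
import Pool.Agent.N459.EWWBIJ

/-!
# Project EK (helper20), part KBIJ (helper946): equivariant bijections of classes of pairs
-/

set_option autoImplicit false

open scoped Classical BigOperators

noncomputable section

namespace Pool.Agent.N946.EKKBIJ

open Pool.Agent.Y63.NV
open Pool.Agent.Y63.KR
open Pool.Agent.Y63.AWC (IsIrreducibleCharacter pSubgroupSetoid)
open Pool.Agent.N20.EW
open Pool.Agent.N459.EWWBIJ (cl_aut)

section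

variable {p : ℕ} {F : Type} [Field F] {red : integralClosure ℤ ℂ →+* F} {G : Type} [Group G]
  {B : (G → F) → F}

theorem map_inj (β : MulAut G) : Function.Injective (fun P : Subgroup G => P.map β.toMonoidHom) :=
  Subgroup.map_injective β.injective

theorem chain_map {σ : Set (Subgroup G)} (h : IsPChain p σ) (β : MulAut G) :
    IsPChain p ((fun P : Subgroup G => P.map β.toMonoidHom) '' σ) := by
  refine ⟨?_, ?_, ?_⟩
  · rintro _ ⟨P, hP, rfl⟩ _ ⟨Q, hQ, rfl⟩ hne
    have hPQ : P ≠ Q := fun h => hne (by rw [h])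
    rcases h.chain hP hQ hPQ with h1 | h1
    · exact Or.inl (Subgroup.map_mono h1)
    · exact Or.inr (Subgroup.map_mono h1)
  · rintro _ ⟨P, hP, rfl⟩
    exact (h.isPGroup P hP).map _
  · rintro _ ⟨P, hP, rfl⟩ h0
    exact h.ne_bot P hP ((Subgroup.map_eq_bot_iff_of_injective P β.injective).1 h0)

/-- the isomorphism of the stabilisers -/
def cE (β : MulAut G) (σ : Set (Subgroup G)) :
    chainStabilizer σ ≃* chainStabilizer ((fun P : Subgroup G => P.map β.toMonoidHom) '' σ) where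
  toFun x := ⟨β x, (cs_aut β).2 x.2⟩
  invFun y := ⟨β.symm y, (cs_aut β).1 (by rw [β.apply_symm_apply]; exact y.2)⟩
  left_inv x := Subtype.ext (β.symm_apply_apply _)
  right_inv x := Subtype.ext (β.apply_symm_apply _)
  map_mul' x y := Subtype.ext (map_mul β _ _)

theorem exi {β : MulAut G} (hβ : InvA B β) (s : CPr p red B) :
    ∃ s' : CPr p red B, MapC β s s' := by
  obtain ⟨⟨σ, ψ⟩, h1, h2, h3⟩ := s
  refine ⟨⟨⟨(fun P : Subgroup G => P.map β.toMonoidHom) '' σ, fun y => ψ ((cE β σ).symm y)⟩,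
    chain_map h1 β, Pool.Agent.Y63.AWC.irr_comp (cE β σ).symm h2, fun f hf => ?_⟩, rfl,
    fun x y hxy => ?_⟩
  · have h4 := Pool.Agent.Y624.NV.centralValue_comp red (cE β σ).symm h2
      (f := fun x : chainStabilizer σ => f (β x)) (fun a x => cl_aut hf β a x)
    have h5 : (fun y : chainStabilizer ((fun P : Subgroup G => P.map β.toMonoidHom) '' σ) =>
        f (β ((cE β σ).symm y))) = fun y : chainStabilizer
          ((fun P : Subgroup G => P.map β.toMonoidHom) '' σ) => f y := by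
      funext y
      exact congrArg f (β.apply_symm_apply y)
    rw [h5] at h4
    exact (h4.trans (h3 (fun x => f (β x)) (fun a x => cl_aut hf β a x))).trans (hβ f hf)
  · have h6 : (cE β σ).symm y = x := by
      apply Subtype.ext
      change β.symm (y : G) = (x : G)
      rw [hxy]
      exact β.symm_apply_apply _
    exact congrArg ψ h6

theorem uniq {β : MulAut G} {s s' s'' : CPr p red B} (h' : MapC β s s') (h'' : MapC β s s'') :
    s' = s'' := by
  obtain ⟨⟨σ', ψ'⟩, hs'⟩ := s'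
  obtain ⟨⟨σ'', ψ''⟩, hs''⟩ := s''
  obtain ⟨h1, h2⟩ := h'
  obtain ⟨h3, h4⟩ := h''
  have hσ : σ' = σ'' := h1.trans h3.symm
  subst hσ
  have hψ : ψ' = ψ'' := by
    funext y
    have h5 : σ' = (fun P : Subgroup G => P.map β.toMonoidHom) '' s.chn := h1
    have hy : β.symm y ∈ chainStabilizer s.chn := (cs_aut β).1 (by
      rw [β.apply_symm_apply, ← h5]
      exact y.2)
    exact (h2 ⟨β.symm y, hy⟩ y (β.apply_symm_apply _).symm).trans
      (h4 ⟨β.symm y, hy⟩ y (β.apply_symm_apply _).symm).symm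
  subst hψ
  rfl

theorem rp_mk (s : CPr p red B) :
    ∃ g : G, MapC (MulAut.conj g) s (CCl.rp (Quotient.mk (cpSetoid p red B) s)) :=
  (cpSetoid p red B).symm (Quotient.mk_out s)

theorem ik_exi {β : MulAut G} (hβ : InvA B β) (C : CCl p red B) :
    ∃ C' : CCl p red B, ImgK β C C' := by
  obtain ⟨s', hs'⟩ := exi hβ C.rp
  obtain ⟨g, hg⟩ := rp_mk s'
  exact ⟨Quotient.mk _ s', g, hs'.mul hg⟩

theorem ik_one (C : CCl p red B) : ImgK 1 C C := by
  refine ⟨1, ?_⟩
  rw [map_one, one_mul]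
  exact MapC.one _

theorem ik_comp {β β' : MulAut G} {C C' C'' : CCl p red B} (h : ImgK β C C')
    (h' : ImgK β' C' C'') : ImgK (β' * β) C C'' := by
  obtain ⟨g, hg⟩ := h
  obtain ⟨g', hg'⟩ := h'
  refine ⟨g' * β' g, ?_⟩
  rw [← Pool.Agent.N459.EWWBIJ.conj_mul]
  exact hg.mul hg'

theorem ik_inv {β : MulAut G} {C C' : CCl p red B} (h : ImgK β C C') : ImgK β⁻¹ C' C := by
  obtain ⟨g, hg⟩ := h
  refine ⟨β⁻¹ g⁻¹, ?_⟩
  rw [← Pool.Agent.N459.EWWBIJ.conj_inv]
  exact hg.inv

theorem ik_uniq {β : MulAut G} {C C' C'' : CCl p red B} (h' : ImgK β C C') (h'' : ImgK β C C'') :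
    C' = C'' := by
  have h1 := ik_comp (ik_inv h') h''
  rw [mul_inv_cancel] at h1
  obtain ⟨g, hg⟩ := h1
  rw [mul_one] at hg
  have h2 : (cpSetoid p red B).r C'.rp C''.rp := ⟨g, hg⟩
  have h3 : Quotient.mk (cpSetoid p red B) C'.rp = Quotient.mk (cpSetoid p red B) C''.rp :=
    Quotient.sound h2
  exact (Quotient.out_eq C').symm.trans (h3.trans (Quotient.out_eq C''))

theorem ik_len {β : MulAut G} {C C' : CCl p red B} (h : ImgK β C C') : C'.len = C.len := by
  obtain ⟨g, hg⟩ := h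
  unfold CCl.len
  rw [hg.1]
  exact Set.ncard_image_of_injective _ (map_inj _)

variable [Finite G]

theorem fin_CPr : Finite (CPr p red B) := by
  have h1 : ∀ σ : Set (Subgroup G),
      Finite {ψ : chainStabilizer σ → ℂ // IsIrreducibleCharacter ψ} := fun σ =>
    ((Pool.Agent.Y914.NV.irr ℂ (chainStabilizer σ)).1.subset (fun _ h => h)).to_subtype
  refine Finite.of_injective (fun s : CPr p red B => (⟨s.1.1, ⟨s.1.2, s.2.2.1⟩⟩ :
    Σ σ : Set (Subgroup G), {ψ : chainStabilizer σ → ℂ // IsIrreducibleCharacter ψ})) ?_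
  rintro ⟨⟨σ, ψ⟩, h⟩ ⟨⟨σ', ψ'⟩, h'⟩ he
  simp only [Sigma.mk.injEq] at he
  obtain ⟨h2, h3⟩ := he
  subst h2
  have h4 := Subtype.mk.inj (eq_of_heq h3)
  subst h4
  rfl

instance fin_CCl : Finite (CCl p red B) := by
  have := fin_CPr (p := p) (red := red) (B := B)
  exact Quotient.finite (cpSetoid p red B)

/-- the permutation of the classes -/
def pC {β : MulAut G} (hβ : InvA B β) : Equiv.Perm (CCl p red B) :=
  Equiv.ofBijective (fun C => (ik_exi hβ C).choose) (by
    rw [Function.Bijective, ← Finite.injective_iff_surjective, and_self_iff]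
    intro C C' h
    have h1 := (ik_exi hβ C).choose_spec
    have h2 := (ik_exi hβ C').choose_spec
    have h3 : (ik_exi hβ C).choose = (ik_exi hβ C').choose := h
    rw [h3] at h1
    exact ik_uniq (ik_inv h1) (ik_inv h2))

theorem pC_spec {β : MulAut G} (hβ : InvA B β) (C : CCl p red B) : ImgK β C (pC hβ C) :=
  (ik_exi hβ C).choose_spec

theorem pC_pow {β : MulAut G} (hβ : InvA B β) (k : ℕ) (C : CCl p red B) :
    ImgK (β ^ k) C ((pC hβ ^ k) C) := by
  induction k with
  | zero => exact ik_one C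
  | succ k ih =>
    rw [pow_succ', pow_succ', Equiv.Perm.mul_apply]
    exact ik_comp ih (pC_spec hβ _)

theorem sub_pow {X : Type} (f : Equiv.Perm X) {P : X → Prop} (hP : ∀ x, P (f x) ↔ P x) (k : ℕ) :
    ∀ x : {x // P x}, (((f.subtypePerm hP) ^ k) x).1 = (f ^ k) x.1 := by
  induction k with
  | zero => exact fun x => rfl
  | succ k ih =>
    intro x
    rw [pow_succ', pow_succ', Equiv.Perm.mul_apply, Equiv.Perm.mul_apply, ← ih]
    rfl

theorem fixP {β : MulAut G} (hβ : InvA B β) (P : CCl p red B → Prop)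
    (hP : ∀ C, P (pC hβ C) ↔ P C) (k : ℕ) :
    Nat.card {x : {C // P C} // (((pC hβ).subtypePerm hP) ^ k) x = x} =
      Nat.card {C // P C ∧ ImgK (β ^ k) C C} := by
  have key : ∀ x : {C // P C}, (((pC hβ).subtypePerm hP) ^ k) x = x ↔
      ImgK (β ^ k) x.1 x.1 := by
    intro x
    constructor
    · intro h
      have h1 := pC_pow hβ k x.1
      rw [← sub_pow (pC hβ) hP k x, h] at h1
      exact h1
    · intro h
      exact Subtype.ext ((sub_pow (pC hβ) hP k x).trans (ik_uniq (pC_pow hβ k x.1) h))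
  exact Nat.card_congr
    { toFun := fun x => ⟨x.1.1, x.1.2, (key x.1).1 x.2⟩
      invFun := fun C => ⟨⟨C.1, C.2.1⟩, (key ⟨C.1, C.2.1⟩).2 C.2.2⟩
      left_inv := fun _ => rfl
      right_inv := fun _ => rfl }

end

/-- KBIJ -/
theorem KBIJ (h : Pool.Agent.N20.AE.S_PERM) : S_KBIJ := by
  intro p _ F _ red G _ _ α B hB hfix
  have hE : ∀ C : CCl p red B, Even (pC hB C).len ↔ Even C.len := fun C => by
    rw [ik_len (pC_spec hB C)]
  have hO : ∀ C : CCl p red B, ¬ Even (pC hB C).len ↔ ¬ Even C.len := fun C => not_congr (hE C)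
  obtain ⟨e, he⟩ := h {C : CCl p red B // Even C.len} {C : CCl p red B // ¬ Even C.len}
    ((pC hB).subtypePerm hE) ((pC hB).subtypePerm hO) (fun k =>
      (fixP hB (fun C => Even C.len) hE k).trans
        ((hfix k).trans (fixP hB (fun C => ¬ Even C.len) hO k).symm))
  refine ⟨e, fun C C' hC => ?_⟩
  have h1 : C' = (pC hB).subtypePerm hE C := Subtype.ext (ik_uniq hC (pC_spec hB C.1))
  rw [h1, he]
  exact pC_spec hB (e C).1

end Pool.Agent.N946.EKKBIJ
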