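import Pool.Agent.N979.P1.Stm
import Pool.Agent.N526.CP.XDIF
import Pool.Agent.N526.CP.SPH
import Pool.Agent.N526.CP.RAP

/-!
# PROJECT P1, part ZDIF: differentiability of `Z` on the filling (helper946)

The proof is that of `Pool.Agent.N526.CP.XDIF` (helper723), without the inverse map.
-/

set_option autoImplicit false

open MeasureTheory Metric Set Filter Topology InnerProductGeometry Matrix

namespace Pool.Agent.N946.P1_ZDIF

open Pool.Agent.H241R3.FV Pool.Agent.N526.CP Pool.Agent.N526.CP.XDIF Pool.Agent.N979.P1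

theorem t : S_SPH → S_RAP → S_ZDIF := by
  intro hSPH hRAP M _ _ S s g hs0 hs1 hg i
  have hprob : IsProbabilityMeasure (sg 2) := (hSPH 1 le_rfl).1
  set C := S.chart i with hC
  have hloc : ∀ p ∈ C.U, ∀ ε : ℝ, 0 < ε → ∃ r : ℝ, 0 < r ∧ ∀ θ, ∀ y ∈ ball p r, ∀ z ∈ ball p r,
      |g θ (C.map y) - g θ (C.map z)| ≤ gnorm (C.G p) (y - z) + ε * ‖y - z‖ := by
    intro p hp ε hε
    obtain ⟨r, hr, -, h⟩ := Pool.Agent.H241R3.FV.TLoc.taskLoc 2 M C p hp ε hε
    exact ⟨r, hr, fun θ y hy z hz => (hg.lip θ _ _).trans (h y hy z hz)⟩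
  have hlip : ∀ p ∈ C.U, ∃ r : ℝ, 0 < r ∧ ∃ K : ℝ, ∀ θ, ∀ y ∈ ball p r, ∀ z ∈ ball p r,
      ‖g θ (C.map y) - g θ (C.map z)‖ ≤ K * ‖y - z‖ := by
    intro p hp
    obtain ⟨r, hr, h⟩ := hloc p hp 1 one_pos
    refine ⟨r, hr, √(∑ i, ∑ j, |C.G p i j|) + 1, fun θ y hy z hz => ?_⟩
    rw [Real.norm_eq_abs]
    refine (h θ y hy z hz).trans ?_
    rw [add_mul]
    exact add_le_add_left (Pool.Agent.H241R3.FV.gnorm_le _ _) _
  have hcont : ∀ q, Continuous fun θ => g θ q := by
    obtain ⟨K, hK⟩ := hg.lipθ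
    intro q
    refine LipschitzWith.continuous (K := Real.toNNReal K)
      (LipschitzWith.of_dist_le_mul fun θ θ' => ?_)
    rw [Real.dist_eq, Subtype.dist_eq, dist_eq_norm]
    refine (hK θ θ' q).trans ?_
    gcongr
    exact Real.le_coe_toNNReal K
  have hcont2 : ∀ q, Continuous fun θ : Sph 2 => g θ q • (θ : E 2) := fun q =>
    (hcont q).smul continuous_subtype_val
  obtain ⟨hae, hsm⟩ := hRAP 2 ℝ C.U C.isOpen_U (fun θ p => g θ (C.map p)) hlip
    (fun p _ => hcont _) inferInstance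
  filter_upwards [hae] with p hp hpU
  have hdiff := hp hpU
  obtain ⟨α, hαd⟩ : ∃ α : Sph 2 → E 2, α = fun θ =>
      (InnerProductSpace.toDual ℝ (E 2)).symm (fderiv ℝ (fun y => g θ (C.map y)) p) :=
    ⟨_, rfl⟩
  have hαinner : ∀ θ v, inner ℝ (α θ) v = fderiv ℝ (fun y => g θ (C.map y)) p v := by
    intro θ v
    rw [hαd]
    exact InnerProductSpace.toDual_symm_apply
  have hsm1 : StronglyMeasurable
      (fun θ : Sph 2 => fderiv ℝ (fun y => g θ (C.map y)) p) := by
    have h1 := hsm.comp_measurable (measurable_prodMk_left (x := p) (β := Sph 2))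
    have e : (fun θ : Sph 2 => fderiv ℝ (fun y => g θ (C.map y)) p) =
        (fun z : E 2 × Sph 2 =>
          open Classical in if z.1 ∈ C.U then fderiv ℝ (fun y => g z.2 (C.map y)) z.1 else 0) ∘
          Prod.mk p := by
      funext θ
      simp only [Function.comp_apply, if_pos hpU]
    rw [e]
    exact h1
  have hαm : StronglyMeasurable α := by
    rw [hαd]
    exact (InnerProductSpace.toDual ℝ (E 2)).symm.continuous.comp_stronglyMeasurable hsm1
  have hHas : ∀ᵐ θ ∂(sg 2), HasFDerivAt (g θ ∘ C.map) (innerSL ℝ (α θ)) p := by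
    filter_upwards [hdiff] with θ hθ
    have h1 : HasFDerivAt (g θ ∘ C.map) (fderiv ℝ (fun y => g θ (C.map y)) p) p := hθ.hasFDerivAt
    have e : innerSL ℝ (α θ) = fderiv ℝ (fun y => g θ (C.map y)) p := by
      ext v
      exact hαinner θ v
    rw [e]
    exact h1
  have hbd : ∀ᵐ θ ∂(sg 2), ∀ v, |inner ℝ (α θ) v| ≤ gnorm (C.G p) v := by
    filter_upwards [hHas] with θ hθ v
    refine fderiv_bound hθ (fun ε hε => ?_) v
    obtain ⟨r, hr, h⟩ := hloc p hpU ε hε
    exact ⟨r, hr, fun y hy => h θ y hy p (mem_ball_self hr)⟩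
  -- the derivative of the integral
  obtain ⟨r, hr, K, hK⟩ := hlip p hpU
  have hI := hasFDerivAt_integral_of_dominated_loc_of_lip' (𝕜 := ℝ) (μ := sg 2)
    (s := ball p r) (x₀ := p) (F := fun y (θ : Sph 2) => g θ (C.map y) • (θ : E 2))
    (F' := fun θ : Sph 2 => (innerSL ℝ (α θ)).smulRight (θ : E 2))
    (bound := fun _ => K) (ball_mem_nhds p hr) ?_ ?_ ?_ ?_ ?_ ?_
  · obtain ⟨hInt, hD⟩ := hI
    refine ⟨α, hαm.measurable, hHas, hbd,
      ∫ θ : Sph 2, (innerSL ℝ (α θ)).smulRight (θ : E 2) ∂(sg 2), fun v => ?_, hD⟩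
    exact ContinuousLinearMap.integral_apply hInt v
  · intro x _
    exact (hcont2 _).aestronglyMeasurable
  · exact (hcont2 _).integrable_of_hasCompactSupport (HasCompactSupport.of_compactSpace _)
  · have h1 : StronglyMeasurable (fun θ : Sph 2 => innerSL ℝ (α θ)) :=
      (innerSL ℝ).continuous.comp_stronglyMeasurable hαm
    have h2 : StronglyMeasurable (fun θ : Sph 2 => (θ : E 2)) :=
      continuous_subtype_val.stronglyMeasurable
    exact ((ContinuousLinearMap.smulRightL ℝ (E 2)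
      (E 2)).continuous₂.comp_stronglyMeasurable (h1.prodMk h2)).aestronglyMeasurable
  · refine Eventually.of_forall fun θ x hx => ?_
    rw [← sub_smul, norm_smul, norm_sph, mul_one]
    exact hK θ x hx p (mem_ball_self hr)
  · exact integrable_const K
  · filter_upwards [hHas] with θ hθ
    exact hθ.smul_const (θ : E 2)

theorem main : S_ZDIF := t SPH.t RAP.t

end Pool.Agent.N946.P1_ZDIF
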